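import Pool.Agent.Lib.MP_acd137_lc.Final
import Pool.Agent.Lib.MP_acd137_lc.Breaks2
import Pool.Agent.Lib.MP_acd137_lc.Irr2
import Pool.Agent.Lib.MP_acd137_lc.NonL2
import Pool.Agent.Lib.MP_acd137_lc.GenA
import Pool.Agent.Lib.MP_acd137_lc.GenB

/-!
# Numbers which are simple in one base, seen in an independent base

Definitions (`Pool/Agent/Lib/MP_acd137_lc/Spec.lean`): `digit b x k`, `complexity b x n`, `Indep b c`,
`Simple b x`, `Automatic k w`, `champ` (Champernowne's number).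
-/

set_option autoImplicit false

namespace Pool.Agent.Results.MP_acd137_lc.SimpleInTwoBases

open Filter Topology Pool.Agent.Lib.MP_acd137_lc

/-- **Theorem.**  Let `b, c ≥ 2` be multiplicatively independent and let the irrational number `x` be simple in
base `b`.  Then `x` is not simple in base `c`; for every `C` its base `c` expansion has more than `C n` different
blocks of length `n` for infinitely many `n`, and for all large `n` if `x` is not a Liouville number; and no
finite automaton with output generates its base `c` digits.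

Irrational and simple in base `b` are: (A) `x` with `h x = u + ∑ e i / b^(m i)`, `h ≥ 1`, `u` integers, `e i` bounded
nonzero integers, `m` lacunary; (B) `x` whose base `b` digits change exactly at the places `m i`, `m` lacunary
(in both cases `x` is no Liouville number if `m (i+1) / m i` is bounded); and, for `b = 10`, Champernowne's number,
which is not a Liouville number. -/
theorem result :
    (∀ (b c : ℕ) (x : ℝ), 2 ≤ b → 2 ≤ c → Indep b c → Irrational x → Simple b x →
      ¬ Simple c x ∧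
      (∀ C : ℕ, ∃ᶠ n : ℕ in atTop, C * n < complexity c x n) ∧
      (¬ Liouville x → ∀ C : ℕ, ∀ᶠ n : ℕ in atTop, C * n < complexity c x n) ∧
      ∀ k : ℕ, 2 ≤ k → ¬ Automatic k (fun m => digit c x (m + 1))) ∧
    (∀ (b : ℕ) (m : ℕ → ℕ) (lam x : ℝ), 2 ≤ b → StrictMono m → 1 < lam →
      (∀ᶠ i in atTop, lam * m i ≤ (m (i + 1) : ℝ)) →
      ((∃ (h D : ℕ) (u : ℤ) (e : ℕ → ℤ), 0 < h ∧ (∀ i, e i ≠ 0 ∧ |e i| ≤ D) ∧
          (h : ℝ) * x = u + ∑' i, (e i : ℝ) / (b : ℝ) ^ m i) ∨
        (∀ k, 1 ≤ k → (digit b x k ≠ digit b x (k + 1) ↔ k ∈ Set.range m))) →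
      Simple b x ∧ Irrational x ∧
        ∀ C : ℝ, (∀ᶠ i in atTop, (m (i + 1) : ℝ) ≤ C * m i) → ¬ Liouville x) ∧
    Simple 10 champ ∧ Irrational champ ∧ ¬ Liouville champ := by
  obtain ⟨h1, -, h3⟩ := mainT
  refine ⟨?_, ?_, h3⟩
  · intro b c x hb hc hbc hx hs
    obtain ⟨h4, h5, -, h7⟩ := h1 b c x hb hc hbc hx hs
    exact ⟨h4, h5, tF3 tDigits (tPig tDigits) tT1 tT3 kpT b c x hb hc hbc hx hs, h7⟩
  · have key : ∀ (b : ℕ) (m : ℕ → ℕ) (lam x : ℝ), 2 ≤ b → StrictMono m → 1 < lam →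
        (∀ᶠ i in atTop, lam * m i ≤ (m (i + 1) : ℝ)) →
        ∀ (h D : ℕ) (u : ℤ) (e : ℕ → ℤ), 0 < h → (∀ i, e i ≠ 0 ∧ |e i| ≤ D) →
          (h : ℝ) * x = u + ∑' i, (e i : ℝ) / (b : ℝ) ^ m i →
        Simple b x ∧ Irrational x ∧
          ∀ C : ℝ, (∀ᶠ i in atTop, (m (i + 1) : ℝ) ≤ C * m i) → ¬ Liouville x := by
      intro b m lam x hb hm hlam hm2 h D u e hh he hx
      obtain ⟨q, A, hB, hne⟩ := tGenA b m lam x h D u e hb hm hlam hm2 hh he hx
      exact ⟨tBreaks2 b x lam m q A hb hlam hB, tIrr2 b x lam m q A hb hlam hB hne,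
        fun C hC => tNonL2 b x lam C m q A hb hlam hB hne hC⟩
    intro b m lam x hb hm hlam hm2 hx
    rcases hx with ⟨h, D, u, e, hh, he, hx⟩ | hx
    · exact key b m lam x hb hm hlam hm2 h D u e hh he hx
    · obtain ⟨m', h, D, u, e, hm', hm2', hh, he, hx', hC'⟩ := tGenB b m lam x hb hm hlam hm2 hx
      obtain ⟨h4, h5, h6⟩ := key b m' lam x hb hm' hlam hm2' h D u e hh he hx'
      exact ⟨h4, h5, fun C hC => h6 C (hC' C hC)⟩

end Pool.Agent.Results.MP_acd137_lc.SimpleInTwoBases
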