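import Pool.Agent.Lib.MP_acd137_lc.PD.Rec
import Pool.Agent.Lib.MP_acd137_lc.PD.Tag
import Pool.Agent.Lib.MP_acd137_lc.PD.NotRec
import Pool.Agent.Lib.MP_acd137_lc.Breaks2
import Pool.Agent.Lib.MP_acd137_lc.Irr2
import Pool.Agent.Lib.MP_acd137_lc.GenA
import Pool.Agent.Lib.MP_acd137_lc.GenB

/-!
# Numbers which are simple in one base are not generated by one-stack machines or tag machines in an
independent base
-/

set_option autoImplicit false

namespace Pool.Agent.Results.MP_acd137_lc.StackMachines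

open Filter MPacdPD Pool.Agent.Lib.MP_acd137_lc

/-- **Theorem.**  Let `b, c ≥ 2` be multiplicatively independent, and let `x` be irrational and simple in base `b`;
or (A) `g x = u + ∑ e i / b ^ m i` with integers `g ≥ 1`, `u`, bounded nonzero integers `e i` and `m i` increasing
with `m (i + 1) ≥ lam * m i` for large `i`, `lam > 1`; or (B) the base `b` digits number `k` and `k + 1` of `x` are
different exactly for the `k` among such `m i`; or `b = 10` and `x` Champernowne's number.  Then, for every `h`,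
the base `c` digits of `x` from the `h`-th on are not generated by a one-stack machine (deterministic pushdown
automaton with output, free moves allowed) which reads the base `k` digits of the index, `k ≥ 2`, nor by a tag
machine with dilation factor larger than one. -/
theorem result (b c : ℕ) (x : ℝ) (hb : 2 ≤ b) (hc : 2 ≤ c) (hbc : Indep b c)
    (hx : (Irrational x ∧ Simple b x) ∨
      (∃ (m : ℕ → ℕ) (lam : ℝ), StrictMono m ∧ 1 < lam ∧
        (∀ᶠ i in atTop, lam * m i ≤ (m (i + 1) : ℝ)) ∧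
        ((∃ (g D : ℕ) (u : ℤ) (e : ℕ → ℤ), 0 < g ∧ (∀ i, e i ≠ 0 ∧ |e i| ≤ D) ∧
          (g : ℝ) * x = u + ∑' i, (e i : ℝ) / (b : ℝ) ^ m i) ∨
        (∀ k, 1 ≤ k → (digit b x k ≠ digit b x (k + 1) ↔ k ∈ Set.range m)))) ∨
      (b = 10 ∧ x = champ)) (h : ℕ) :
    (∀ k : ℕ, 2 ≤ k → ¬ OneStack k (fun n => digit c x (n + h))) ∧
      ¬ TagMachine (fun n => digit c x (n + h)) := by
  have key : ∀ (m : ℕ → ℕ) (lam : ℝ), StrictMono m → 1 < lam →
      (∀ᶠ i in atTop, lam * m i ≤ (m (i + 1) : ℝ)) →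
      ∀ (g D : ℕ) (u : ℤ) (e : ℕ → ℤ), 0 < g → (∀ i, e i ≠ 0 ∧ |e i| ≤ D) →
        (g : ℝ) * x = u + ∑' i, (e i : ℝ) / (b : ℝ) ^ m i → Irrational x ∧ Simple b x := by
    intro m lam hm hlam hm2 g D u e hg he hx
    obtain ⟨q, A, hB, hne⟩ := tGenA b m lam x g D u e hb hm hlam hm2 hg he hx
    exact ⟨tIrr2 b x lam m q A hb hlam hB hne, tBreaks2 b x lam m q A hb hlam hB⟩
  have hx' : Irrational x ∧ Simple b x := by
    rcases hx with hx | ⟨m, lam, hm, hlam, hm2, hx | hx⟩ | ⟨rfl, rfl⟩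
    · exact hx
    · obtain ⟨g, D, u, e, hg, he, hx⟩ := hx
      exact key m lam hm hlam hm2 g D u e hg he hx
    · obtain ⟨m', g, D, u, e, hm', hm2', hg, he, hx', _⟩ := tGenB b m lam x hb hm hlam hm2 hx
      exact key m' lam hm' hlam hm2' g D u e hg he hx'
    · obtain ⟨_, _, h1, h2, _⟩ := mainT
      exact ⟨h2, h1⟩
  have hnr := not_recurs tDigits (tTfreq tT1 tT2) kpT b c x hb hc hbc hx'.1 hx'.2 h
  exact ⟨fun k hk hS => hnr (stack_recurs hk _ hS), fun hT => hnr (tag_recurs _ hT)⟩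

end Pool.Agent.Results.MP_acd137_lc.StackMachines
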